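import Mathlib
import Pool.Agent.CoveringBody.Cover
import Pool.Agent.CoveringBody.Hull
import Pool.Agent.CoveringBody.Uniq

open Set
open scoped Pointwise
open Pool.Agent.CoveringBody

namespace Pool.Agent.Results.MP_4f7bfc_co.InteriorLatticeTetrahedron

/-- Euclidean `n`-space. -/
abbrev E (n : ℕ) : Type := EuclideanSpace ℝ (Fin n)

/-- `Λ` is a full-rank lattice: `Λ = A ℤⁿ` for an invertible real `n × n` matrix `A`. -/
def IsFullRankLattice {n : ℕ} (Λ : Set (E n)) : Prop :=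
  ∃ A : Matrix (Fin n) (Fin n) ℝ, IsUnit A ∧
    Λ = {p | ∃ c : Fin n → ℤ, ∀ i, p i = ∑ j, A i j * (c j : ℝ)}

/-- `K` is a lattice covering body for `Λ`: a compact convex set with `K + Λ = ℝⁿ`. -/
def IsLatticeCoveringBody {n : ℕ} (Λ K : Set (E n)) : Prop :=
  IsCompact K ∧ Convex ℝ K ∧ K + Λ = univ

/-- `K` is a minimal covering body for `Λ`: no proper subset of `K` is a lattice covering body. -/
def IsMinimalCoveringBody {n : ℕ} (Λ K : Set (E n)) : Prop :=
  IsLatticeCoveringBody Λ K ∧ ∀ K' : Set (E n), K' ⊂ K → ¬ IsLatticeCoveringBody Λ K'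

/-- `Q` is a full-dimensional lattice polytope for `Λ`: the convex hull of a finite subset of
`Λ`, with nonempty interior. -/
def IsFullDimLatticePolytope {n : ℕ} (Λ Q : Set (E n)) : Prop :=
  ∃ S : Set (E n), S.Finite ∧ S ⊆ Λ ∧ Q = convexHull ℝ S ∧ (interior Q).Nonempty

/-- The standard lattice in 3-space. -/
def L3 : Set (E 3) := {p | ∃ c : Fin 3 → ℤ, ∀ i, p i = (c i : ℝ)}

/-- The polytope with 17 vertices and 25 facets. -/
def K3 : Set (E 3) := {p | inK (p 0) (p 1) (p 2)}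

lemma pt_eq (p : E 3) : pt (p 0) (p 1) (p 2) = p := by
  ext i
  fin_cases i <;> simp [pt]

@[simp] lemma pt_zero (x y z : ℝ) : (pt x y z) 0 = x := by simp [pt]
@[simp] lemma pt_one (x y z : ℝ) : (pt x y z) 1 = y := by simp [pt]
@[simp] lemma pt_two (x y z : ℝ) : (pt x y z) 2 = z := by simp [pt]

lemma L3_lattice : IsFullRankLattice L3 := by
  refine ⟨1, isUnit_one, ?_⟩
  ext p
  simp [L3, Matrix.one_apply]

lemma K3_closed : IsClosed K3 := by
  unfold K3 inK
  simp only [ofPred_and]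
  repeat' apply IsClosed.inter
  all_goals exact isClosed_le (by fun_prop) (by fun_prop)

lemma K3_compact : IsCompact K3 := by
  apply Metric.isCompact_of_isClosed_isBounded K3_closed
  rw [isBounded_iff_forall_norm_le]
  refine ⟨4, fun p hp => ?_⟩
  obtain ⟨⟨a0, a1⟩, ⟨b0, b1⟩, ⟨c0, c1⟩⟩ := inK_box hp
  rw [EuclideanSpace.norm_eq, Fin.sum_univ_three]
  simp only [Real.norm_eq_abs, sq_abs]
  rw [Real.sqrt_le_left (by norm_num)]
  have e0 : (p 0) ^ 2 ≤ 4 := by nlinarith
  have e1 : (p 1) ^ 2 ≤ 4 := by nlinarith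
  have e2 : (p 2) ^ 2 ≤ 4 := by nlinarith
  linarith

lemma conv_ineq {A B C D a b p0 p1 p2 q0 q1 q2 : ℝ} (ha : 0 ≤ a) (hb : 0 ≤ b) (hab : a + b = 1)
    (h1 : A * p0 + B * p1 + C * p2 ≤ D) (h2 : A * q0 + B * q1 + C * q2 ≤ D) :
    A * (a * p0 + b * q0) + B * (a * p1 + b * q1) + C * (a * p2 + b * q2) ≤ D := by
  have e1 := mul_le_mul_of_nonneg_left h1 ha
  have e2 := mul_le_mul_of_nonneg_left h2 hb
  calc A * (a * p0 + b * q0) + B * (a * p1 + b * q1) + C * (a * p2 + b * q2)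
      = a * (A * p0 + B * p1 + C * p2) + b * (A * q0 + B * q1 + C * q2) := by ring
    _ ≤ a * D + b * D := add_le_add e1 e2
    _ = D := by rw [← add_mul, hab, one_mul]

lemma K3_convex : Convex ℝ K3 := by
  intro p hp q hq a b ha hb hab
  obtain ⟨h1, h2, h3, h4, h5, h6, h7, h8, h9, h10, h11, h12, h13, h14, h15, h16, h17, h18, h19, h20, h21, h22, h23, h24, h25⟩ := hp
  obtain ⟨k1, k2, k3, k4, k5, k6, k7, k8, k9, k10, k11, k12, k13, k14, k15, k16, k17, k18, k19, k20, k21, k22, k23, k24, k25⟩ := hq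
  show inK ((a • p + b • q) 0) ((a • p + b • q) 1) ((a • p + b • q) 2)
  simp only [PiLp.add_apply, PiLp.smul_apply, smul_eq_mul]
  exact ⟨conv_ineq ha hb hab h1 k1,
    conv_ineq ha hb hab h2 k2,
    conv_ineq ha hb hab h3 k3,
    conv_ineq ha hb hab h4 k4,
    conv_ineq ha hb hab h5 k5,
    conv_ineq ha hb hab h6 k6,
    conv_ineq ha hb hab h7 k7,
    conv_ineq ha hb hab h8 k8,
    conv_ineq ha hb hab h9 k9,
    conv_ineq ha hb hab h10 k10,
    conv_ineq ha hb hab h11 k11,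
    conv_ineq ha hb hab h12 k12,
    conv_ineq ha hb hab h13 k13,
    conv_ineq ha hb hab h14 k14,
    conv_ineq ha hb hab h15 k15,
    conv_ineq ha hb hab h16 k16,
    conv_ineq ha hb hab h17 k17,
    conv_ineq ha hb hab h18 k18,
    conv_ineq ha hb hab h19 k19,
    conv_ineq ha hb hab h20 k20,
    conv_ineq ha hb hab h21 k21,
    conv_ineq ha hb hab h22 k22,
    conv_ineq ha hb hab h23 k23,
    conv_ineq ha hb hab h24 k24,
    conv_ineq ha hb hab h25 k25⟩

lemma K3_covers : K3 + L3 = univ := by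
  rw [eq_univ_iff_forall]
  intro p
  obtain ⟨i, j, k, h⟩ := cover_space (p 0) (p 1) (p 2)
  refine mem_add.2 ⟨pt (p 0 - i) (p 1 - j) (p 2 - k), ?_, pt i j k, ?_, ?_⟩
  · simpa [K3] using h
  · refine ⟨![i, j, k], fun l => ?_⟩
    fin_cases l <;> simp
  · ext l
    fin_cases l <;> simp [pt]

/-- If points arbitrarily close to `e` lie in only one lattice translate of `K3`, then `e`
belongs to every covering body contained in `K3`. -/
lemma vertex_mem {K' : Set (E 3)} (hcl : IsClosed K') (hcov : K' + L3 = univ) (hsub : K' ⊆ K3)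
    (e0 e1 e2 d0 d1 d2 : ℝ)
    (huniq : ∀ t : ℝ, 0 < t → t ≤ 1 → ∀ i j k : ℤ,
      inK (e0 + t * d0 - i) (e1 + t * d1 - j) (e2 + t * d2 - k) → i = 0 ∧ j = 0 ∧ k = 0) :
    pt e0 e1 e2 ∈ K' := by
  have h1 : ∀ t : ℝ, 0 < t → t ≤ 1 →
      pt (e0 + t * d0) (e1 + t * d1) (e2 + t * d2) ∈ K' := by
    intro t ht0 ht1
    have hmem : pt (e0 + t * d0) (e1 + t * d1) (e2 + t * d2) ∈ K' + L3 := by
      rw [hcov]; trivial
    obtain ⟨a, ha, b, ⟨c, hc⟩, hab⟩ := mem_add.1 hmem
    have hb : b = pt (c 0) (c 1) (c 2) := by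
      ext l
      fin_cases l
      · simpa using hc 0
      · simpa using hc 1
      · simpa using hc 2
    have ha0 : a 0 = e0 + t * d0 - c 0 := by
      have := congrArg (fun z : E 3 => z 0) hab
      simp [hb] at this
      linarith
    have ha1 : a 1 = e1 + t * d1 - c 1 := by
      have := congrArg (fun z : E 3 => z 1) hab
      simp [hb] at this
      linarith
    have ha2 : a 2 = e2 + t * d2 - c 2 := by
      have := congrArg (fun z : E 3 => z 2) hab
      simp [hb] at this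
      linarith
    have haK : inK (e0 + t * d0 - c 0) (e1 + t * d1 - c 1) (e2 + t * d2 - c 2) := by
      have h : inK (a 0) (a 1) (a 2) := hsub ha
      rwa [ha0, ha1, ha2] at h
    obtain ⟨z0, z1, z2⟩ := huniq t ht0 ht1 _ _ _ haK
    have hb0 : b = 0 := by
      rw [hb, z0, z1, z2]
      ext l
      fin_cases l <;> simp [pt]
    rw [hb0, add_zero] at hab
    rw [← hab]
    exact ha
  have hcont : Continuous (fun t : ℝ => pt (e0 + t * d0) (e1 + t * d1) (e2 + t * d2)) := by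
    unfold pt
    fun_prop
  have h0 : (0 : ℝ) ∈ closure (Ioc (0 : ℝ) 1) := by
    rw [closure_Ioc (by norm_num)]
    simp
  have := map_mem_closure hcont h0 (t := K') (fun t ht => h1 t ht.1 ht.2)
  rw [hcl.closure_eq] at this
  simpa using this

lemma K3_minimal : IsMinimalCoveringBody L3 K3 := by
  refine ⟨⟨K3_compact, K3_convex, K3_covers⟩, ?_⟩
  intro K' hss ⟨hcomp, hconv, hcov⟩
  have hsub : K' ⊆ K3 := hss.1
  have hcl : IsClosed K' := hcomp.isClosed
  apply hss.2
  intro p hp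
  rw [← pt_eq p]
  exact hull_all hconv
    (vertex_mem hcl hcov hsub 0 0 (1 / 8) (1 / 6) (1 / 12) 0 uniq_0)
    (vertex_mem hcl hcov hsub (1 / 3) (1 / 3) 0 0 (-1 / 6) (1 / 12) uniq_1)
    (vertex_mem hcl hcov hsub (1 / 2) (1 / 6) 1 (1 / 12) 0 (-1 / 12) uniq_2)
    (vertex_mem hcl hcov hsub (1 / 2) 1 (33 / 32) (1 / 12) 0 (-1 / 12) uniq_3)
    (vertex_mem hcl hcov hsub (1 / 2) (7 / 6) 1 (1 / 12) (-1 / 6) 0 uniq_4)
    (vertex_mem hcl hcov hsub (2 / 3) 0 0 0 (1 / 12) (1 / 12) uniq_5)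
    (vertex_mem hcl hcov hsub (5 / 6) (5 / 6) 0 (1 / 12) 0 (1 / 12) uniq_6)
    (vertex_mem hcl hcov hsub 1 0 (1 / 8) 0 (1 / 12) 0 uniq_7)
    (vertex_mem hcl hcov hsub 1 0 (9 / 8) 0 0 (-1 / 12) uniq_8)
    (vertex_mem hcl hcov hsub 1 1 (1 / 8) 0 (-1 / 12) 0 uniq_9)
    (vertex_mem hcl hcov hsub (4 / 3) (1 / 3) 0 (-1 / 12) 0 (1 / 12) uniq_10)
    (vertex_mem hcl hcov hsub (3 / 2) (-5 / 6) 1 (-1 / 12) (1 / 4) (-1 / 12) uniq_11)
    (vertex_mem hcl hcov hsub (3 / 2) 0 (33 / 32) (-1 / 12) 0 0 uniq_12)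
    (vertex_mem hcl hcov hsub (3 / 2) (1 / 6) 1 (-1 / 12) 0 0 uniq_13)
    (vertex_mem hcl hcov hsub (5 / 3) 1 0 0 (-1 / 12) (1 / 12) uniq_14)
    (vertex_mem hcl hcov hsub (11 / 6) (5 / 6) 0 (-1 / 12) 0 (1 / 12) uniq_15)
    (vertex_mem hcl hcov hsub 2 1 (1 / 8) (-1 / 6) (-1 / 12) 0 uniq_16)
    (p 0) (p 1) (p 2) hp

/-- The vertices of the lattice tetrahedron. -/
def S3 : Set (E 3) := {pt 0 0 0, pt 0 0 1, pt 1 (-1) 1, pt 1 0 0}

lemma S3_sub : S3 ⊆ L3 := by
  intro p hp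
  rcases hp with rfl | rfl | rfl | rfl
  · refine ⟨![0, 0, 0], fun l => ?_⟩
    fin_cases l <;> simp
  · refine ⟨![0, 0, 1], fun l => ?_⟩
    fin_cases l <;> simp
  · refine ⟨![1, -1, 1], fun l => ?_⟩
    fin_cases l <;> simp
  · refine ⟨![1, 0, 0], fun l => ?_⟩
    fin_cases l <;> simp

lemma Q3_interior : (interior (convexHull ℝ S3)).Nonempty := by
  have hopen : IsOpen {p : E 3 | (p 1 < 0 ∧ 0 < p 0 + p 1) ∧ (0 < p 2 + p 1 ∧
      p 0 + p 1 + p 2 < 1)} := by
    simp only [ofPred_and]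
    repeat' apply IsOpen.inter
    all_goals exact isOpen_lt (by fun_prop) (by fun_prop)
  refine ⟨pt (1 / 2) (-(1 / 4)) (1 / 2), ?_⟩
  refine mem_interior.2 ⟨_, ?_, hopen, ?_⟩
  · rintro p ⟨⟨h1, h2⟩, ⟨h3, h4⟩⟩
    rw [← pt_eq p]
    have hc := convex_convexHull ℝ S3
    have hs := subset_convexHull ℝ S3
    refine conv4 hc (hs (show pt 0 0 0 ∈ S3 by simp [S3])) (hs (show pt 0 0 1 ∈ S3 by simp [S3]))
      (hs (show pt 1 (-1) 1 ∈ S3 by simp [S3])) (hs (show pt 1 0 0 ∈ S3 by simp [S3]))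
      (1 - (p 0 + p 1 + p 2)) (p 2 + p 1) (-(p 1)) (p 0 + p 1)
      (by linarith) (by linarith) (by linarith) (by linarith) (by ring) (by ring) (by ring)
      (by ring)
  · norm_num

lemma mem_interior_K3 {x y z : ℝ} (h : inKs x y z) : pt x y z ∈ interior K3 := by
  have hopen : IsOpen {p : E 3 | inKs (p 0) (p 1) (p 2)} := by
    unfold inKs
    simp only [ofPred_and]
    repeat' apply IsOpen.inter
    all_goals exact isOpen_lt (by fun_prop) (by fun_prop)
  refine mem_interior.2 ⟨_, ?_, hopen, by simpa using h⟩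
  rintro p ⟨h1, h2, h3, h4, h5, h6, h7, h8, h9, h10, h11, h12, h13, h14, h15, h16, h17, h18, h19, h20, h21, h22, h23, h24, h25⟩
  exact ⟨h1.le, h2.le, h3.le, h4.le, h5.le, h6.le, h7.le, h8.le, h9.le, h10.le, h11.le, h12.le, h13.le, h14.le, h15.le, h16.le, h17.le, h18.le, h19.le, h20.le, h21.le, h22.le, h23.le, h24.le, h25.le⟩

lemma tetra_inside : convexHull ℝ S3 + {pt (1 / 2) (1 / 2) (1 / 100)} ⊆ interior K3 := by
  rw [add_singleton, image_subset_iff]
  apply convexHull_min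
  · intro p hp
    rcases hp with rfl | rfl | rfl | rfl
    · have e : pt 0 0 0 + pt (1 / 2) (1 / 2) (1 / 100) = pt (1 / 2) (1 / 2) (1 / 100) := by
        ext l
        fin_cases l <;> simp [pt]
      rw [mem_preimage, e]
      apply mem_interior_K3
      unfold inKs
      norm_num
    · have e : pt 0 0 1 + pt (1 / 2) (1 / 2) (1 / 100) = pt (1 / 2) (1 / 2) (101 / 100) := by
        ext l
        fin_cases l <;> simp [pt]
        norm_num
      rw [mem_preimage, e]
      apply mem_interior_K3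
      unfold inKs
      norm_num
    · have e : pt 1 (-1) 1 + pt (1 / 2) (1 / 2) (1 / 100) =
          pt (3 / 2) (-(1 / 2)) (101 / 100) := by
        ext l
        fin_cases l <;> simp [pt] <;> norm_num
      rw [mem_preimage, e]
      apply mem_interior_K3
      unfold inKs
      norm_num
    · have e : pt 1 0 0 + pt (1 / 2) (1 / 2) (1 / 100) = pt (3 / 2) (1 / 2) (1 / 100) := by
        ext l
        fin_cases l <;> simp [pt]
        norm_num
      rw [mem_preimage, e]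
      apply mem_interior_K3
      unfold inKs
      norm_num
  · have h : Convex ℝ (interior K3) := K3_convex.interior
    intro a ha b hb u v hu hv huv
    rw [mem_preimage] at ha hb ⊢
    have hab := h ha hb hu hv huv
    have e : u • a + v • b + pt (1 / 2) (1 / 2) (1 / 100) =
        u • (a + pt (1 / 2) (1 / 2) (1 / 100)) + v • (b + pt (1 / 2) (1 / 2) (1 / 100)) := by
      have h1 : pt (1 / 2) (1 / 2) (1 / 100) =
          u • pt (1 / 2) (1 / 2) (1 / 100) + v • pt (1 / 2) (1 / 2) (1 / 100) := by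
        rw [← add_smul, huv, one_smul]
      rw [smul_add, smul_add]
      nth_rewrite 1 [h1]
      abel
    rw [e]
    exact hab

/-- **Disproof of the question of Lian and Xue.** In dimension three there are a full-rank lattice
`Λ`, a minimal covering body `K` for `Λ`, a full-dimensional lattice polytope `Q` (a
tetrahedron) and a vector `x` such that the whole of `Q + x` lies in the interior of `K`;
in particular some vertex of `Q + x` lies in the interior of `K`. -/
theorem result :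
    ∃ (Λ K Q : Set (E 3)) (x : E 3),
      IsFullRankLattice Λ ∧ IsMinimalCoveringBody Λ K ∧ IsFullDimLatticePolytope Λ Q ∧
      Q + {x} ⊆ interior K ∧ ∃ v ∈ (Q + {x}).extremePoints ℝ, v ∈ interior K := by
  have hfin : S3.Finite := by simp [S3]
  refine ⟨L3, K3, convexHull ℝ S3, pt (1 / 2) (1 / 2) (1 / 100), L3_lattice, K3_minimal,
    ⟨S3, hfin, S3_sub, rfl, Q3_interior⟩, tetra_inside, ?_⟩
  have hcomp : IsCompact (convexHull ℝ S3 + {pt (1 / 2) (1 / 2) (1 / 100)}) :=
    (hfin.isCompact_convexHull ℝ).add isCompact_singleton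
  have hne : (convexHull ℝ S3 + {pt (1 / 2) (1 / 2) (1 / 100)}).Nonempty :=
    (Q3_interior.mono interior_subset).add (singleton_nonempty _)
  obtain ⟨v, hv⟩ := hcomp.extremePoints_nonempty hne
  exact ⟨v, hv, tetra_inside hv.1⟩

end Pool.Agent.Results.MP_4f7bfc_co.InteriorLatticeTetrahedron
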